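import Pool.Agent.H86.DB.Targets

/-!
# A minimal system of generators
-/

open Module

namespace Pool.Agent.H77.DB

open Pool.Agent.H86.DB

universe u

/-- Nakayama: a subalgebra `B` which contains the nilpotent element `x` and with `A = B + x A`. -/
theorem min_naka {k : Type u} [Field k] {A : Type u} [CommRing A] [Algebra k A]
    (B : Subalgebra k A) (x : A) (hx : x ∈ B) (c : ℕ) (hc : x ^ c = 0)
    (h : ∀ a : A, ∃ b ∈ B, ∃ d : A, a = b + x * d) : B = ⊤ := by
  have key : ∀ n : ℕ, ∀ a : A, ∃ b ∈ B, ∃ d : A, a = b + x ^ n * d := by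
    intro n
    induction n with
    | zero => exact fun a => ⟨0, B.zero_mem, a, by simp⟩
    | succ n ih =>
      intro a
      obtain ⟨b, hb, d, rfl⟩ := ih a
      obtain ⟨b', hb', d', rfl⟩ := h d
      exact ⟨b + x ^ n * b', B.add_mem hb (B.mul_mem (B.pow_mem hx n) hb'), d', by ring⟩
  rw [eq_top_iff]
  rintro a -
  obtain ⟨b, hb, d, rfl⟩ := key c a
  rw [hc, zero_mul, add_zero]
  exact hb

theorem pf_MIN : T_MIN.{u} := by
  intro k _ A _ _ _ α c m x hα hx htop hmin
  by_contra hlt
  push Not at hlt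
  obtain ⟨x₀, hx₀⟩ : ∃ x₀, x₀ = x (Fin.last m) := ⟨_, rfl⟩
  rw [← hx₀] at hlt
  have hαx : α x₀ = 0 := by rw [hx₀]; exact hx _
  have hI : ∀ a : A, a ∈ Ideal.span {x₀} → α a = 0 := by
    intro a ha
    obtain ⟨d, rfl⟩ := Ideal.mem_span_singleton.1 ha
    rw [map_mul, hαx, zero_mul]
  let α' : (A ⧸ Ideal.span {x₀}) →ₐ[k] k := Ideal.Quotient.liftₐ (Ideal.span {x₀}) α hI
  have hα' : ∀ a : A, α' (Ideal.Quotient.mk _ a) = α a := fun a => rfl
  let V : Submodule k (A ⧸ Ideal.span {x₀}) := LinearMap.ker α'.toLinearMap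
  have hrange : LinearMap.range α'.toLinearMap = ⊤ := by
    rw [LinearMap.range_eq_top]
    intro r
    exact ⟨algebraMap k _ r, by
      show α' (algebraMap k _ r) = r
      rw [AlgHom.commutes]
      rfl⟩
  have hrn := LinearMap.finrank_range_add_finrank_ker α'.toLinearMap
  rw [hrange, finrank_top, finrank_self] at hrn
  have hV : finrank k V + 1 ≤ m := by
    have h1 : finrank k V = finrank k (LinearMap.ker α'.toLinearMap) := rfl
    omega
  let b := finBasis k V
  have hlift : ∀ i : Fin (finrank k V), ∃ v : A, Ideal.Quotient.mk (Ideal.span {x₀}) v = (b i).1 :=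
    fun i => Ideal.Quotient.mk_surjective _
  choose v hv using hlift
  have hαv : ∀ i, α (v i) = 0 := by
    intro i
    rw [← hα', hv]
    exact (b i).2
  let y : Fin m → A := fun i => if h : i.1 < finrank k V then v ⟨i.1, h⟩ else x₀
  have hy0 : ∀ i, α (y i) = 0 := by
    intro i
    show α (if h : i.1 < finrank k V then v ⟨i.1, h⟩ else x₀) = 0
    split_ifs with h
    · exact hαv _
    · exact hαx
  have hyv : ∀ i, v i ∈ Algebra.adjoin k (Set.range y) := by
    intro i
    apply Algebra.subset_adjoin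
    refine ⟨⟨i.1, by have := i.2; omega⟩, ?_⟩
    show (if h : i.1 < finrank k V then v ⟨i.1, h⟩ else x₀) = v i
    rw [dif_pos i.2]
  have hyx : x₀ ∈ Algebra.adjoin k (Set.range y) := by
    apply Algebra.subset_adjoin
    refine ⟨⟨m - 1, by omega⟩, ?_⟩
    show (if h : m - 1 < finrank k V then v ⟨m - 1, h⟩ else x₀) = x₀
    rw [dif_neg (by omega)]
  refine hmin y hy0 (min_naka _ x₀ hyx c ?_ ?_)
  · have h1 : x₀ ^ c ∈ RingHom.ker α ^ c := Ideal.pow_mem_pow ((RingHom.mem_ker).2 hαx) c
    rw [hα] at h1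
    exact h1
  · intro a
    have h1 : Ideal.Quotient.mk (Ideal.span {x₀}) a - algebraMap k _ (α a) ∈ V := by
      show α' (Ideal.Quotient.mk (Ideal.span {x₀}) a - algebraMap k _ (α a)) = 0
      rw [map_sub, hα', AlgHom.commutes]
      exact sub_self _
    obtain ⟨w, hw⟩ : ∃ w : V, w.1 = Ideal.Quotient.mk (Ideal.span {x₀}) a -
        algebraMap k _ (α a) := ⟨⟨_, h1⟩, rfl⟩
    have h2 := congrArg Subtype.val (b.sum_repr w)
    rw [hw] at h2
    have h3 : Ideal.Quotient.mk (Ideal.span {x₀}) (a - (algebraMap k A (α a) +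
        ∑ i, (b.repr w i) • v i)) = 0 := by
      rw [map_sub, map_add, map_sum]
      have h4 : ∀ i, Ideal.Quotient.mk (Ideal.span {x₀}) ((b.repr w i) • v i) =
          ((b.repr w i) • b i : V).1 := by
        intro i
        rw [Submodule.coe_smul, ← hv i]
        rfl
      simp only [h4]
      rw [← Submodule.coe_sum, h2]
      have h5 : Ideal.Quotient.mk (Ideal.span {x₀}) (algebraMap k A (α a)) =
          algebraMap k _ (α a) := rfl
      rw [h5]
      ring
    rw [Ideal.Quotient.eq_zero_iff_mem] at h3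
    obtain ⟨d, hd⟩ := Ideal.mem_span_singleton.1 h3
    refine ⟨algebraMap k A (α a) + ∑ i, (b.repr w i) • v i, ?_, d, ?_⟩
    · refine Subalgebra.add_mem _ (Subalgebra.algebraMap_mem _ _) ?_
      exact Subalgebra.sum_mem _ fun i _ => Subalgebra.smul_mem _ (hyv i) _
    · rw [← hd]
      ring

end Pool.Agent.H77.DB
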