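import Pool.Agent.H86.DB.Targets

/-!
# The number of partitions is superadditive
-/

namespace Pool.Agent.H77.DB

open Pool.Agent.H86.DB

theorem pf_SUPA : T_SUPA := by
  intro a b ha hb
  classical
  have hmax : ∀ μ : Nat.Partition b, ∃ M ∈ μ.parts, ∀ x ∈ μ.parts, x ≤ M := by
    intro μ
    have h0 : μ.parts ≠ 0 := by
      intro h
      have h1 := μ.parts_sum
      rw [h, Multiset.sum_zero] at h1
      omega
    obtain ⟨z, hz⟩ := Multiset.exists_mem_of_ne_zero h0
    obtain ⟨M, hM, h2⟩ := μ.parts.toFinset.exists_max_image id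
      ⟨z, Multiset.mem_toFinset.2 hz⟩
    exact ⟨M, Multiset.mem_toFinset.1 hM, fun x hx => h2 x (Multiset.mem_toFinset.2 hx)⟩
  choose M hM hMx using hmax
  have hM1 : ∀ μ, 1 ≤ M μ := fun μ => μ.parts_pos (hM μ)
  have hsum : ∀ μ : Nat.Partition b, M μ + (μ.parts.erase (M μ)).sum = b := by
    intro μ
    rw [← Multiset.sum_cons, Multiset.cons_erase (hM μ), μ.parts_sum]
  let F : Nat.Partition a ⊕ Nat.Partition b → Nat.Partition (a + b) := fun x =>
    match x with
    | Sum.inl l => ⟨l.parts + Multiset.replicate b 1, by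
        intro i hi
        rcases Multiset.mem_add.1 hi with h | h
        · exact l.parts_pos h
        · rw [Multiset.eq_of_mem_replicate h]
          exact one_pos, by
        rw [Multiset.sum_add, l.parts_sum, Multiset.sum_replicate, smul_eq_mul, mul_one]⟩
    | Sum.inr μ => ⟨(M μ + a) ::ₘ μ.parts.erase (M μ), by
        intro i hi
        rcases Multiset.mem_cons.1 hi with h | h
        · rw [h]
          have := hM1 μ
          omega
        · exact μ.parts_pos (Multiset.mem_of_mem_erase h), by
        rw [Multiset.sum_cons]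
        have := hsum μ
        omega⟩
  have hFl : ∀ l, (F (Sum.inl l)).parts = l.parts + Multiset.replicate b 1 := fun l => rfl
  have hFr : ∀ μ, (F (Sum.inr μ)).parts = (M μ + a) ::ₘ μ.parts.erase (M μ) := fun μ => rfl
  have hlr : ∀ l μ, F (Sum.inl l) ≠ F (Sum.inr μ) := by
    intro l μ h
    have h1 : (F (Sum.inl l)).parts.count 1 = (F (Sum.inr μ)).parts.count 1 := by rw [h]
    rw [hFl, hFr, Multiset.count_add, Multiset.count_replicate_self, Multiset.count_cons_of_ne
      (by have := hM1 μ; omega)] at h1
    have h2 := Multiset.count_le_card 1 (μ.parts.erase (M μ))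
    have h3 : (μ.parts.erase (M μ)).card • 1 ≤ (μ.parts.erase (M μ)).sum :=
      Multiset.card_nsmul_le_sum fun x hx => μ.parts_pos (Multiset.mem_of_mem_erase hx)
    rw [smul_eq_mul, mul_one] at h3
    have h4 := hsum μ
    have h5 := hM1 μ
    omega
  have hinj : Function.Injective F := by
    rintro (l | μ) (l' | μ') h
    · have h1 : (F (Sum.inl l)).parts = (F (Sum.inl l')).parts := by rw [h]
      rw [hFl, hFl] at h1
      have h2 := add_right_cancel h1
      rw [Nat.Partition.ext h2]
    · exact absurd h (hlr l μ')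
    · exact absurd h.symm (hlr l' μ)
    · have h1 : (F (Sum.inr μ)).parts = (F (Sum.inr μ')).parts := by rw [h]
      rw [hFr, hFr] at h1
      have h2 : ∀ ν ν' : Nat.Partition b, (M ν + a) ::ₘ ν.parts.erase (M ν) =
          (M ν' + a) ::ₘ ν'.parts.erase (M ν') → M ν ≤ M ν' := by
        intro ν ν' he
        have h3 : M ν + a ∈ (M ν' + a) ::ₘ ν'.parts.erase (M ν') := by
          rw [← he]
          exact Multiset.mem_cons_self _ _
        rcases Multiset.mem_cons.1 h3 with h4 | h4
        · omega
        · have := hMx ν' _ (Multiset.mem_of_mem_erase h4)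
          omega
      have h3 : M μ = M μ' := le_antisymm (h2 μ μ' h1) (h2 μ' μ h1.symm)
      rw [h3] at h1
      have h4 := (Multiset.cons_inj_right _).1 h1
      have h5 : μ.parts = μ'.parts := by
        rw [← Multiset.cons_erase (hM μ), ← Multiset.cons_erase (hM μ'), h3, h4]
      rw [Nat.Partition.ext h5]
  rw [← Fintype.card_sum]
  exact Fintype.card_le_of_injective F hinj

end Pool.Agent.H77.DB
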